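import Mathlib

set_option autoImplicit false

namespace Pool.Agent.H.MP_ba8092_nt

open MeasureTheory ProbabilityTheory Filter Topology Finset

theorem var_le {Ω : Type*} [MeasurableSpace Ω] (P : Measure Ω) [IsProbabilityMeasure P]
    (A : ℕ → Set Ω) (hA : ∀ i, MeasurableSet (A i)) (L : ℕ)
    (hi : ∀ i j, i + L ≤ j → P.real (A i ∩ A j) = P.real (A i) * P.real (A j)) (N : ℕ) :
    Var[fun ω => ∑ i ∈ range N, (A i).indicator (1 : Ω → ℝ) ω; P] ≤
      2 * L * ∑ i ∈ range N, P.real (A i) := by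
  have hm : ∀ i, MemLp ((A i).indicator (1 : Ω → ℝ)) 2 P := fun i =>
    (memLp_const (1 : ℝ)).indicator (hA i)
  have hc : ∀ i j, cov[(A i).indicator (1 : Ω → ℝ), (A j).indicator (1 : Ω → ℝ); P] =
      P.real (A i ∩ A j) - P.real (A i) * P.real (A j) := by
    intro i j
    rw [covariance_eq_sub (hm i) (hm j), ← Set.inter_indicator_one, integral_indicator_one (hA i),
      integral_indicator_one (hA j), integral_indicator_one ((hA i).inter (hA j))]
  rw [variance_fun_sum' fun i _ => hm i, mul_sum]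
  refine sum_le_sum fun i _ => ?_
  have h1 : ∀ j ∈ range N, cov[(A i).indicator (1 : Ω → ℝ), (A j).indicator (1 : Ω → ℝ); P] ≤
      if j ∈ Ioo (i - L) (i + L) ∪ (if i < L then {0} else ∅) then P.real (A i) else 0 := by
    intro j _
    rw [hc]
    by_cases h : j ∈ Ioo (i - L) (i + L) ∪ (if i < L then {0} else ∅)
    · rw [if_pos h]
      have := measureReal_mono (μ := P) (Set.inter_subset_left (s := A i) (t := A j))
      have : 0 ≤ P.real (A i) * P.real (A j) := by positivity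
      linarith
    · rw [if_neg h]
      have : i + L ≤ j ∨ j + L ≤ i := by
        by_cases hl : i < L
        · simp [hl] at h; omega
        · simp [hl] at h; omega
      rcases this with h | h
      · rw [hi i j h]; simp
      · rw [Set.inter_comm, hi j i h]; simp [mul_comm]
  refine (sum_le_sum h1).trans ?_
  rw [← sum_filter, sum_const, nsmul_eq_mul]
  refine mul_le_mul_of_nonneg_right ?_ measureReal_nonneg
  have : #{j ∈ range N | j ∈ Ioo (i - L) (i + L) ∪ (if i < L then {0} else ∅)} ≤ 2 * L := by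
    refine (card_le_card (fun j hj => (mem_filter.1 hj).2)).trans ((card_union_le _ _).trans ?_)
    rw [Nat.card_Ioo]
    split_ifs <;> simp <;> omega
  exact_mod_cast this

theorem lim_lo : Tendsto (fun j : ℕ => ((j : ℝ) ^ 4 - j ^ 3) / (j + 1) ^ 4) atTop (𝓝 1) := by
  have h : Tendsto (fun j : ℕ => (1 : ℝ) / j) atTop (𝓝 0) := tendsto_one_div_atTop_nhds_zero_nat
  have h2 : Tendsto (fun j : ℕ => (1 - (1 : ℝ) / j) / (1 + 1 / j) ^ 4) atTop
      (𝓝 ((1 - 0) / (1 + 0) ^ 4)) :=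
    (tendsto_const_nhds.sub h).div ((tendsto_const_nhds.add h).pow 4) (by norm_num)
  norm_num only at h2
  refine h2.congr' ?_
  filter_upwards [eventually_gt_atTop 0] with j hj
  have : (0 : ℝ) < j := by exact_mod_cast hj
  field_simp

theorem lim_hi :
    Tendsto (fun j : ℕ => (((j : ℝ) + 1) ^ 4 + 1 + (j + 1) ^ 3) / j ^ 4) atTop (𝓝 1) := by
  have h : Tendsto (fun j : ℕ => (1 : ℝ) / j) atTop (𝓝 0) := tendsto_one_div_atTop_nhds_zero_nat
  have h2 : Tendsto (fun j : ℕ => (1 + (1 : ℝ) / j) ^ 4 + (1 / j) ^ 4 + (1 + 1 / j) ^ 3 * (1 / j))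
      atTop (𝓝 ((1 + 0) ^ 4 + 0 ^ 4 + (1 + 0) ^ 3 * 0)) :=
    (((tendsto_const_nhds.add h).pow 4).add (h.pow 4)).add
      (((tendsto_const_nhds.add h).pow 3).mul h)
  norm_num only at h2
  refine h2.congr' ?_
  filter_upwards [eventually_gt_atTop 0] with j hj
  have : (0 : ℝ) < j := by exact_mod_cast hj
  field_simp

theorem slln {Ω : Type*} [MeasurableSpace Ω] (P : Measure Ω) [IsProbabilityMeasure P]
    (A : ℕ → Set Ω) (hA : ∀ i, MeasurableSet (A i)) (L : ℕ)
    (hi : ∀ i j, i + L ≤ j → P.real (A i ∩ A j) = P.real (A i) * P.real (A j))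
    (hd : Tendsto (fun N => ∑ i ∈ range N, P.real (A i)) atTop atTop) :
    ∀ᵐ ω ∂P, Tendsto (fun N => (∑ i ∈ range N, (A i).indicator (1 : Ω → ℝ) ω) /
      ∑ i ∈ range N, P.real (A i)) atTop (𝓝 1) := by
  classical
  set a : ℕ → ℝ := fun N => ∑ i ∈ range N, P.real (A i) with ha
  set S : ℕ → Ω → ℝ := fun N ω => ∑ i ∈ range N, (A i).indicator (1 : Ω → ℝ) ω with hS
  have hex : ∀ j : ℕ, ∃ N, (j : ℝ) ^ 4 ≤ a N := fun j => (hd.eventually_ge_atTop _).exists
  set M : ℕ → ℕ := fun j => Nat.find (hex j) with hM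
  have hM1 : ∀ j : ℕ, (j : ℝ) ^ 4 ≤ a (M j) := fun j => Nat.find_spec (hex j)
  have hM2 : ∀ j : ℕ, a (M j) ≤ (j : ℝ) ^ 4 + 1 := by
    intro j
    rcases h : M j with _ | m
    · simp only [ha, sum_range_zero]; positivity
    · have h1 : ¬ (j : ℝ) ^ 4 ≤ a m := Nat.find_min (hex j) (by change m < M j; omega)
      have h2 : a (m + 1) = a m + P.real (A m) := sum_range_succ _ _
      have h3 : P.real (A m) ≤ 1 := measureReal_le_one
      linarith [not_le.1 h1]
  have hm : ∀ i, MemLp ((A i).indicator (1 : Ω → ℝ)) 2 P := fun i =>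
    (memLp_const (1 : ℝ)).indicator (hA i)
  have hE : ∀ N, P[S N] = a N := by
    intro N
    rw [hS, integral_finsetSum _ fun i _ => (hm i).integrable one_le_two]
    exact sum_congr rfl fun i _ => integral_indicator_one (hA i)
  have hb : ∀ j : ℕ, P {ω | ((j + 1 : ℕ) : ℝ) ^ 3 ≤ |S (M (j + 1)) ω - a (M (j + 1))|} ≤
      ENNReal.ofReal (4 * L * (1 / ((j + 1 : ℕ) : ℝ) ^ 2)) := by
    intro j
    have hp : (1 : ℝ) ≤ ((j + 1 : ℕ) : ℝ) := by exact_mod_cast Nat.le_add_left 1 j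
    have := meas_ge_le_variance_div_sq (μ := P) (X := S (M (j + 1)))
      (memLp_finsetSum _ fun i _ => hm i) (c := ((j + 1 : ℕ) : ℝ) ^ 3) (by positivity)
    rw [hE] at this
    refine this.trans (ENNReal.ofReal_le_ofReal ?_)
    have h1 := var_le P A hA L hi (M (j + 1))
    have h2 := hM2 (j + 1)
    have h3 : (1 : ℝ) ≤ ((j + 1 : ℕ) : ℝ) ^ 4 := one_le_pow₀ hp
    rw [div_le_iff₀ (by positivity)]
    have h4 : 4 * L * (1 / ((j + 1 : ℕ) : ℝ) ^ 2) * (((j + 1 : ℕ) : ℝ) ^ 3) ^ 2 =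
      2 * L * (2 * ((j + 1 : ℕ) : ℝ) ^ 4) := by field_simp; ring
    rw [h4]
    refine h1.trans (mul_le_mul_of_nonneg_left ?_ (by positivity))
    change a _ ≤ _
    linarith
  have hs : Summable fun j : ℕ => 4 * L * (1 / ((j + 1 : ℕ) : ℝ) ^ 2) :=
    ((summable_nat_add_iff 1).2 (Real.summable_one_div_nat_pow.2 one_lt_two)).mul_left _
  have hf : ∑' j : ℕ, P {ω | ((j + 1 : ℕ) : ℝ) ^ 3 ≤ |S (M (j + 1)) ω - a (M (j + 1))|} ≠ ⊤ := by
    refine ne_top_of_le_ne_top ?_ (ENNReal.tsum_le_tsum hb)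
    rw [← ENNReal.ofReal_tsum_of_nonneg (fun j => by positivity) hs]
    exact ENNReal.ofReal_ne_top
  filter_upwards [ae_eventually_notMem hf] with ω hω
  have hω' : ∀ᶠ j : ℕ in atTop, |S (M j) ω - a (M j)| < (j : ℝ) ^ 3 := by
    obtain ⟨j0, hj⟩ := eventually_atTop.1 hω
    filter_upwards [eventually_ge_atTop (j0 + 1)] with j h
    obtain ⟨k, rfl⟩ : ∃ k, j = k + 1 := ⟨j - 1, by omega⟩
    exact not_le.1 (hj k (by omega))
  have hmono : Monotone fun N => S N ω := fun m n h =>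
    sum_le_sum_of_subset_of_nonneg (range_mono h) fun i _ _ =>
      Set.indicator_nonneg (fun _ _ => zero_le_one) _
  set J : ℕ → ℕ := fun N => Nat.sqrt (Nat.sqrt ⌊a N⌋₊) with hJ
  have ha0 : ∀ N, 0 ≤ a N := fun N => sum_nonneg fun _ _ => measureReal_nonneg
  have hJ1 : ∀ N, (J N : ℝ) ^ 4 ≤ a N := by
    intro N
    refine le_trans ?_ (Nat.floor_le (ha0 N))
    have h1 := Nat.sqrt_le' (Nat.sqrt ⌊a N⌋₊)
    have h2 := Nat.sqrt_le' ⌊a N⌋₊
    have : J N ^ 4 ≤ ⌊a N⌋₊ := by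
      calc J N ^ 4 = (J N ^ 2) ^ 2 := by ring
        _ ≤ _ := (Nat.pow_le_pow_left h1 2).trans h2
    exact_mod_cast this
  have hJ2 : ∀ N, a N < ((J N : ℝ) + 1) ^ 4 := by
    intro N
    refine (Nat.lt_floor_add_one _).trans_le ?_
    have h1 := Nat.lt_succ_sqrt' (Nat.sqrt ⌊a N⌋₊)
    have h2 := Nat.lt_succ_sqrt' ⌊a N⌋₊
    have : ⌊a N⌋₊ + 1 ≤ (J N + 1) ^ 4 := by
      calc ⌊a N⌋₊ + 1 ≤ (Nat.sqrt ⌊a N⌋₊ + 1) ^ 2 := h2
        _ ≤ ((J N + 1) ^ 2) ^ 2 := Nat.pow_le_pow_left h1 2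
        _ = _ := by ring
    exact_mod_cast this
  have hJt : Tendsto J atTop atTop := by
    refine tendsto_atTop.2 fun b => ?_
    filter_upwards [hd.eventually_ge_atTop ((b : ℝ) ^ 4)] with N hN
    have := lt_of_pow_lt_pow_left₀ 4 (by positivity) (hN.trans_lt (hJ2 N))
    have : b < J N + 1 := by exact_mod_cast this
    omega
  refine tendsto_of_tendsto_of_tendsto_of_le_of_le' (lim_lo.comp hJt) (lim_hi.comp hJt) ?_ ?_
  · filter_upwards [hJt.eventually hω', hJt.eventually_ge_atTop 1] with N h1 h2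
    have h3 : M (J N) ≤ N := Nat.find_min' (hex _) (hJ1 N)
    have h4 := hmono h3
    have h5 : (1 : ℝ) ≤ J N := by exact_mod_cast h2
    have h6 : (0 : ℝ) < a N := lt_of_lt_of_le (by positivity) (hJ1 N)
    have h7 := hM1 (J N)
    have h8 : (J N : ℝ) ^ 3 ≤ (J N : ℝ) ^ 4 := pow_le_pow_right₀ h5 (by norm_num)
    change ((J N : ℝ) ^ 4 - J N ^ 3) / (J N + 1) ^ 4 ≤ S N ω / a N
    have h9 := (abs_lt.1 h1).1
    exact div_le_div₀ (by simp only at h4; linarith) (by simp only at h4; linarith) h6 (hJ2 N).le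
  · have hJt' : Tendsto (fun N => J N + 1) atTop atTop := (tendsto_add_atTop_nat 1).comp hJt
    filter_upwards [hJt'.eventually hω', hJt.eventually_ge_atTop 1] with N h1 h2
    have h3 : N ≤ M (J N + 1) := by
      by_contra h
      have hma : Monotone a := fun m n h =>
        sum_le_sum_of_subset_of_nonneg (range_mono h) fun i _ _ => measureReal_nonneg
      have h4 := hma (not_le.1 h).le
      have h5 := hM1 (J N + 1)
      have h6 := hJ2 N
      push_cast at h5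
      linarith
    have h4 := hmono h3
    have h5 : (1 : ℝ) ≤ J N := by exact_mod_cast h2
    have h7 := hM2 (J N + 1)
    change S N ω / a N ≤ (((J N : ℝ) + 1) ^ 4 + 1 + (J N + 1) ^ 3) / J N ^ 4
    have h9 := (abs_lt.1 h1).2
    push_cast at h7 h9
    exact div_le_div₀ (by positivity) (by simp only at h4; linarith) (by positivity) (hJ1 N)

theorem sum_ev {u v : ℕ → ℝ} (h : ∀ᶠ i in atTop, u i = v i) :
    ∃ c, ∀ᶠ n in atTop, ∑ i ∈ range n, u i = ∑ i ∈ range n, v i + c := by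
  obtain ⟨i0, hi⟩ := eventually_atTop.1 h
  refine ⟨∑ i ∈ range i0, u i - ∑ i ∈ range i0, v i, ?_⟩
  filter_upwards [eventually_ge_atTop i0] with n hn
  induction n, hn using Nat.le_induction with
  | base => ring
  | succ n hn ih => rw [sum_range_succ, sum_range_succ, ih, hi n hn]; ring

theorem ratio_ev {u v u' v' : ℕ → ℝ} (hu : ∀ᶠ i in atTop, u i = u' i)
    (hv : ∀ᶠ i in atTop, v i = v' i)
    (hd : Tendsto (fun n => ∑ i ∈ range n, v' i) atTop atTop) {l : ℝ}
    (h : Tendsto (fun n => (∑ i ∈ range n, u i) / ∑ i ∈ range n, v i) atTop (𝓝 l)) :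
    Tendsto (fun n => (∑ i ∈ range n, u' i) / ∑ i ∈ range n, v' i) atTop (𝓝 l) := by
  obtain ⟨c, hc⟩ := sum_ev hu
  obtain ⟨d, hd'⟩ := sum_ev hv
  have h0 := hd.inv_tendsto_atTop
  have h1 : Tendsto (fun n => (∑ i ∈ range n, u i) / (∑ i ∈ range n, v i) *
      (1 + d * (∑ i ∈ range n, v' i)⁻¹) - c * (∑ i ∈ range n, v' i)⁻¹) atTop
      (𝓝 (l * (1 + d * 0) - c * 0)) :=
    (h.mul (tendsto_const_nhds.add (h0.const_mul d))).sub (h0.const_mul c)
  simp only [mul_zero, add_zero, mul_one, sub_zero] at h1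
  refine h1.congr' ?_
  filter_upwards [hc, hd', hd.eventually_gt_atTop 0, hd.eventually_gt_atTop (-d)] with n a b e f
  have : ∑ i ∈ range n, v' i + d ≠ 0 := by linarith
  rw [a, b]
  field_simp
  ring

theorem div_ev {v v' : ℕ → ℝ} (hv : ∀ᶠ i in atTop, v' i ≤ v i)
    (hd : Tendsto (fun n => ∑ i ∈ range n, v' i) atTop atTop) :
    Tendsto (fun n => ∑ i ∈ range n, v i) atTop atTop := by
  obtain ⟨d, hd'⟩ := sum_ev (u := fun i => min (v' i) (v i)) (v := v')
    (hv.mono fun i h => min_eq_left h)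
  refine tendsto_atTop_mono' _ ?_ (tendsto_atTop_add_const_right _ d hd)
  filter_upwards [hd'] with n hn
  rw [← hn]
  exact sum_le_sum fun i _ => min_le_right _ _

end Pool.Agent.H.MP_ba8092_nt
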