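import Mathlib

set_option autoImplicit false

namespace Pool.Agent.H.MP_ba8092_nt

open Filter Topology Finset

/-- The product of the first `n` terms of the basic sequence (indices start at `0`). -/
def pr (q : ℕ → ℕ) (n : ℕ) : ℕ := ∏ j ∈ range n, q j

/-- The orbit map. -/
noncomputable def T (q : ℕ → ℕ) (n : ℕ) (x : ℝ) : ℝ := Int.fract ((pr q n : ℝ) * x)

/-- The digits of the Cantor series expansion. -/
noncomputable def digit (q : ℕ → ℕ) (x : ℝ) (n : ℕ) : ℕ := ⌊(q n : ℝ) * T q n x⌋₊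

/-- Number of occurrences of a block starting at one of the first `n` positions. -/
noncomputable def cnt (q : ℕ → ℕ) (x : ℝ) {k : ℕ} (B : Fin k → ℕ) (n : ℕ) : ℕ :=
  #{i ∈ range n | ∀ r : Fin k, digit q x (i + r) = B r}

/-- The expected number of occurrences. -/
noncomputable def Qk (q : ℕ → ℕ) (k n : ℕ) : ℝ :=
  ∑ i ∈ range n, 1 / ∏ r ∈ range k, (q (i + r) : ℝ)

/-- Normal of order `k`. -/
def NormalOrd (q : ℕ → ℕ) (k : ℕ) (x : ℝ) : Prop :=
  ∀ B : Fin k → ℕ, Tendsto (fun n => (cnt q x B n : ℝ) / Qk q k n) atTop (𝓝 1)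

open Classical in
/-- Distribution normal. -/
def DistNormal (q : ℕ → ℕ) (x : ℝ) : Prop :=
  ∀ a b : ℝ, 0 ≤ a → a < b → b ≤ 1 →
    Tendsto (fun N : ℕ => (#{n ∈ range N | T q n x ∈ Set.Ico a b} : ℝ) / N) atTop (𝓝 (b - a))

end Pool.Agent.H.MP_ba8092_nt
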