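import Pool.Agent.H.MP_ba8092_nt.A
import Pool.Agent.H.MP_ba8092_nt.D

set_option autoImplicit false

namespace Pool.Agent.H.MP_ba8092_nt

open MeasureTheory ProbabilityTheory Filter Topology Finset

def K (q E : ℕ → ℕ) : ℕ → ℕ
  | 0 => 0
  | n + 1 => K q E n * q n + E n

noncomputable def val (q E : ℕ → ℕ) : ℝ := ⨆ n, (K q E n : ℝ) / pr q n

variable {q : ℕ → ℕ}

theorem pr_succ (n : ℕ) : pr q (n + 1) = pr q n * q n := prod_range_succ _ _

theorem pr_pos (hq : ∀ n, 2 ≤ q n) (n : ℕ) : (0 : ℝ) < pr q n := by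
  have : 0 < pr q n := prod_pos fun i _ => by have := hq i; omega
  exact_mod_cast this

theorem q_pos (hq : ∀ n, 2 ≤ q n) (n : ℕ) : (0 : ℝ) < q n := by
  have : 0 < q n := by have := hq n; omega
  exact_mod_cast this

theorem lo_mono (hq : ∀ n, 2 ≤ q n) (E : ℕ → ℕ) :
    Monotone fun n => (K q E n : ℝ) / pr q n := by
  refine monotone_nat_of_le_succ fun n => ?_
  have h1 := pr_pos hq n
  have h2 := q_pos hq n
  rw [div_le_div_iff₀ h1 (pr_pos hq _), pr_succ, K]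
  push_cast
  have : (0 : ℝ) ≤ E n * pr q n := by positivity
  nlinarith

theorem hi_step (hq : ∀ n, 2 ≤ q n) {E : ℕ → ℕ} (n c : ℕ) (h : E n + 1 + c ≤ q n) :
    ((K q E (n + 1) : ℝ) + 1 + c) / pr q (n + 1) ≤ ((K q E n : ℝ) + 1) / pr q n := by
  have h1 := pr_pos hq n
  have h2 := q_pos hq n
  rw [div_le_div_iff₀ (pr_pos hq _) h1, pr_succ, K]
  push_cast
  have h3 : (E n : ℝ) + 1 + c ≤ q n := by exact_mod_cast h
  nlinarith [mul_le_mul_of_nonneg_right h3 h1.le]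

theorem hi_anti (hq : ∀ n, 2 ≤ q n) {E : ℕ → ℕ} (hE : ∀ n, E n < q n) :
    Antitone fun n => ((K q E n : ℝ) + 1) / pr q n :=
  antitone_nat_of_succ_le fun n => by simpa using hi_step hq n 0 (hE n)

theorem lo_hi (hq : ∀ n, 2 ≤ q n) {E : ℕ → ℕ} (hE : ∀ n, E n < q n) (m n : ℕ) :
    (K q E m : ℝ) / pr q m ≤ ((K q E n : ℝ) + 1) / pr q n :=
  (lo_mono hq E (le_max_left m n)).trans
    ((div_le_div_of_nonneg_right (by linarith) (pr_pos hq _).le).trans
      (hi_anti hq hE (le_max_right m n)))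

theorem val_ge (hq : ∀ n, 2 ≤ q n) {E : ℕ → ℕ} (hE : ∀ n, E n < q n) (n : ℕ) :
    (K q E n : ℝ) ≤ pr q n * val q E := by
  have : (K q E n : ℝ) / pr q n ≤ val q E :=
    le_ciSup (f := fun n => (K q E n : ℝ) / pr q n)
      ⟨_, by rintro _ ⟨m, rfl⟩; exact lo_hi hq hE m 0⟩ n
  rwa [div_le_iff₀' (pr_pos hq n)] at this

theorem val_le' (hq : ∀ n, 2 ≤ q n) {E : ℕ → ℕ} (hE : ∀ n, E n < q n) (n : ℕ) :
    val q E ≤ ((K q E n : ℝ) + 1) / pr q n := ciSup_le fun m => lo_hi hq hE m n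

theorem val_le (hq : ∀ n, 2 ≤ q n) {E : ℕ → ℕ} (hE : ∀ n, E n < q n) (n : ℕ) :
    pr q n * val q E ≤ (K q E n : ℝ) + 1 := by
  have := val_le' hq hE n
  rwa [le_div_iff₀' (pr_pos hq n)] at this

theorem val_lt (hq : ∀ n, 2 ≤ q n) {E : ℕ → ℕ} (hE : ∀ n, E n < q n)
    (h0 : ∃ᶠ m in atTop, E m = 0) (n : ℕ) : pr q n * val q E < (K q E n : ℝ) + 1 := by
  obtain ⟨m, hm, h⟩ := frequently_atTop.1 h0 n
  rw [← lt_div_iff₀' (pr_pos hq n)]
  refine (val_le' hq hE (m + 1)).trans_lt (lt_of_lt_of_le ?_ (hi_anti hq hE hm))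
  refine lt_of_lt_of_le ?_ (hi_step hq m 1 (by have := hq m; omega))
  exact div_lt_div_of_pos_right (by simp) (pr_pos hq _)

theorem digit_val (hq : ∀ n, 2 ≤ q n) {E : ℕ → ℕ} (hE : ∀ n, E n < q n)
    (h0 : ∃ᶠ m in atTop, E m = 0) (n : ℕ) : digit q (val q E) n = E n := by
  have h1 : ⌊(pr q n : ℝ) * val q E⌋ = K q E n :=
    Int.floor_eq_iff.2 ⟨by exact_mod_cast val_ge hq hE n, by exact_mod_cast val_lt hq hE h0 n⟩
  have h2 := val_ge hq hE (n + 1)
  have h3 := val_lt hq hE h0 (n + 1)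
  rw [pr_succ, K] at h2 h3
  push_cast at h2 h3
  have h4 : (q n : ℝ) * T q n (val q E) = pr q n * q n * val q E - K q E n * q n := by
    rw [T, Int.fract, h1]; push_cast; ring
  have h5 : (0 : ℝ) ≤ E n := by positivity
  rw [digit, h4, Nat.floor_eq_iff (by linarith)]
  constructor <;> linarith

theorem K_inj {E E' : ℕ → ℕ} (hE : ∀ n, E n < q n) (hE' : ∀ n, E' n < q n) :
    ∀ N, K q E N = K q E' N → ∀ i < N, E i = E' i
  | 0, _, _, h => absurd h (Nat.not_lt_zero _)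
  | N + 1, h, i, hi => by
    simp only [K] at h
    have h1 : E N = E' N := by
      have := congrArg (· % q N) h
      simpa [Nat.mul_add_mod', Nat.mod_eq_of_lt (hE N), Nat.mod_eq_of_lt (hE' N)] using this
    rcases Nat.lt_succ_iff_lt_or_eq.1 hi with hi | rfl
    · refine K_inj hE hE' N ?_ i hi
      rw [h1] at h
      exact Nat.eq_of_mul_eq_mul_right (by have := hE N; omega) (Nat.add_right_cancel h)
    · exact h1

noncomputable def un (q : ℕ → ℕ) (n : ℕ) : Measure ℕ := uniformOn (range (q n - 1 + 1) : Set ℕ)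

instance (q : ℕ → ℕ) (n : ℕ) : IsProbabilityMeasure (un q n) :=
  isProbabilityMeasure_uniformOn (finite_toSet _) ⟨0, by simp⟩

noncomputable def P (q : ℕ → ℕ) : Measure (ℕ → ℕ) := Measure.infinitePi (un q)

instance (q : ℕ → ℕ) : IsProbabilityMeasure (P q) := by unfold P; infer_instance

theorem un_real (hq : ∀ n, 2 ≤ q n) (n : ℕ) (t : Finset ℕ) :
    (un q n).real t = #(range (q n) ∩ t) / q n := by
  have : q n - 1 + 1 = q n := by have := hq n; omega
  rw [Measure.real, un, this, uniformOn_apply_finset]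
  simp

theorem P_pi (s : Finset ℕ) (t : ℕ → Finset ℕ) :
    (P q).real (Set.pi s fun i => (t i : Set ℕ)) = ∏ i ∈ s, (un q i).real (t i) := by
  rw [Measure.real, P, Measure.infinitePi_pi _ fun i _ => MeasurableSet.of_discrete,
    ENNReal.toReal_prod]
  rfl

theorem ae_lt (hq : ∀ n, 2 ≤ q n) : ∀ᵐ ω ∂(P q), ∀ n, ω n < q n := by
  refine ae_all_iff.2 fun n => ?_
  have h : (P q).real (Set.pi ({n} : Finset ℕ) fun i => (range (q i) : Set ℕ)) = 1 := by
    rw [P_pi, prod_singleton, un_real hq, inter_self, card_range, div_self (q_pos hq n).ne']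
  have h2 : ∀ᵐ ω ∂(P q), ω ∈ Set.pi ({n} : Finset ℕ) fun i => (range (q i) : Set ℕ) := by
    refine (mem_ae_iff_prob_eq_one (MeasurableSet.pi (countable_toSet _) fun _ _ =>
      MeasurableSet.of_discrete)).2 ?_
    rwa [Measure.real, ENNReal.toReal_eq_one_iff] at h
  filter_upwards [h2] with ω hω
  simpa using hω n (by simp)

theorem cyl (hq : ∀ n, 2 ≤ q n) (Φ : (ℕ → ℕ) → ℕ → ℕ) (g : ℕ → ℕ → ℕ)
    (hΦ : ∀ ω n, ω n = Φ ω n ∨ ω n = g n (Φ ω n)) (N k : ℕ) :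
    (P q).real {ω | (∀ n, Φ ω n < q n) ∧ K q (Φ ω) N = k} ≤ 2 ^ N / pr q N := by
  rcases Set.eq_empty_or_nonempty {ω | (∀ n, Φ ω n < q n) ∧ K q (Φ ω) N = k} with h | ⟨w, hw⟩
  · rw [h, measureReal_empty]; positivity
  have hs : {ω | (∀ n, Φ ω n < q n) ∧ K q (Φ ω) N = k} ⊆
      Set.pi (range N) fun i => (({Φ w i, g i (Φ w i)} : Finset ℕ) : Set ℕ) := by
    intro ω hω i hi
    have := K_inj hω.1 hw.1 N (hω.2.trans hw.2.symm) i (by simpa using hi)
    simpa [← this] using hΦ ω i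
  refine (measureReal_mono hs).trans ?_
  rw [P_pi, pr, Nat.cast_prod, ← card_range N, ← prod_const, card_range, ← prod_div_distrib]
  refine prod_le_prod (fun _ _ => measureReal_nonneg) fun i _ => ?_
  rw [un_real hq]
  refine div_le_div_of_nonneg_right ?_ (q_pos hq i).le
  exact_mod_cast (card_le_card inter_subset_right).trans card_le_two

theorem growth (hq : ∀ n, 2 ≤ q n) (ht : Tendsto q atTop atTop) {η : ℝ} (hη : 0 < η) :
    ∀ᶠ n in atTop, 10 * 2 ^ n ≤ (pr q n : ℝ) ^ η := by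
  have h1 : Tendsto (fun n => η * Real.log (q n)) atTop atTop :=
    (Real.tendsto_log_atTop.comp (tendsto_natCast_atTop_atTop.comp ht)).const_mul_atTop hη
  have h2 := div_ev (v := fun n => η * Real.log (q n) - Real.log 2) (v' := fun _ => 1)
    ((h1.eventually_ge_atTop (1 + Real.log 2)).mono fun i h => by linarith)
    (by simpa using tendsto_natCast_atTop_atTop)
  filter_upwards [h2.eventually_ge_atTop (Real.log 10)] with n hn
  rw [← Real.log_le_log_iff (by positivity) (Real.rpow_pos_of_pos (pr_pos hq n) _),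
    Real.log_mul (by norm_num) (by positivity), Real.log_pow, Real.log_rpow (pr_pos hq n), pr,
    Nat.cast_prod, Real.log_prod fun i _ => (q_pos hq i).ne', mul_sum]
  rw [sum_sub_distrib, sum_const, card_range, nsmul_eq_mul] at hn
  linarith

theorem frost (hq : ∀ n, 2 ≤ q n) (ht : Tendsto q atTop atTop) (Φ : (ℕ → ℕ) → ℕ → ℕ)
    (g : ℕ → ℕ → ℕ) (hΦ : ∀ ω n, ω n = Φ ω n ∨ ω n = g n (Φ ω n)) {s : ℝ} (hs : s < 1) :
    ∃ d > 0, ∀ δ : ℝ, 0 < δ → δ < d → ∀ U : Set ℝ, (∀ x ∈ U, ∀ y ∈ U, |x - y| ≤ δ) →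
      (P q).real {ω | (∀ n, Φ ω n < q n) ∧ val q (Φ ω) ∈ U} ≤ δ ^ s := by
  obtain ⟨n0, hn0⟩ := eventually_atTop.1 (growth hq ht (sub_pos.2 hs))
  refine ⟨1 / pr q n0, by have := pr_pos hq n0; positivity, fun δ h0 hd U hU => ?_⟩
  have hpm : Monotone fun n => (pr q n : ℝ) := monotone_nat_of_le_succ fun n => by
    rw [pr_succ]; exact_mod_cast Nat.le_mul_of_pos_right _ (by have := hq n; omega)
  have hex : ∃ N, 1 ≤ (pr q N : ℝ) * δ := by
    obtain ⟨N, hN⟩ := exists_nat_ge (1 / δ)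
    have : N ≤ pr q N := by
      have h1 := prod_le_prod' (s := range N) (f := fun _ => 2) (g := q) fun i _ => hq i
      rw [prod_const, card_range] at h1
      exact Nat.lt_two_pow_self.le.trans h1
    refine ⟨N, ?_⟩
    rw [← div_le_iff₀ h0]
    exact hN.trans (by exact_mod_cast this)
  have h1 := Nat.find_spec hex
  have h2 : n0 < Nat.find hex := by
    by_contra h
    have h3 := hpm (not_lt.1 h)
    rw [lt_div_iff₀ (pr_pos hq n0)] at hd
    simp only at h3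
    nlinarith
  obtain ⟨n, hn⟩ : ∃ n, Nat.find hex = n + 1 := ⟨Nat.find hex - 1, by omega⟩
  have h3 : (pr q n : ℝ) * δ < 1 := not_le.1 (Nat.find_min hex (by omega))
  rw [hn] at h1
  rcases Set.eq_empty_or_nonempty {ω | (∀ n, Φ ω n < q n) ∧ val q (Φ ω) ∈ U} with h | ⟨w, hw⟩
  · rw [h, measureReal_empty]; positivity
  set m := ⌊(pr q (n + 1) : ℝ) * δ⌋₊ + 1 with hm
  have hs : {ω | (∀ n, Φ ω n < q n) ∧ val q (Φ ω) ∈ U} ⊆
      ⋃ k ∈ Icc (K q (Φ w) (n + 1) - m) (K q (Φ w) (n + 1) + m),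
        {ω | (∀ n, Φ ω n < q n) ∧ K q (Φ ω) (n + 1) = k} := by
    intro ω hω
    simp only [Set.mem_iUnion]
    refine ⟨_, ?_, hω.1, rfl⟩
    have a1 := val_ge hq hω.1 (n + 1)
    have a2 := val_le hq hω.1 (n + 1)
    have a3 := val_ge hq hw.1 (n + 1)
    have a4 := val_le hq hw.1 (n + 1)
    have a5 := abs_le.1 (hU _ hω.2 _ hw.2)
    have a6 := pr_pos hq (n + 1)
    have a7 : (pr q (n + 1) : ℝ) * δ < m := by rw [hm]; push_cast; exact Nat.lt_floor_add_one _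
    have a8 : (K q (Φ ω) (n + 1) : ℝ) < K q (Φ w) (n + 1) + m + 1 := by nlinarith [a5.2]
    have a9 : (K q (Φ w) (n + 1) : ℝ) < K q (Φ ω) (n + 1) + m + 1 := by nlinarith [a5.1]
    have b8 : K q (Φ ω) (n + 1) < K q (Φ w) (n + 1) + m + 1 := by exact_mod_cast a8
    have b9 : K q (Φ w) (n + 1) < K q (Φ ω) (n + 1) + m + 1 := by exact_mod_cast a9
    rw [mem_Icc]
    omega
  refine (measureReal_mono hs (measure_ne_top _ _)).trans
    ((measureReal_biUnion_finset_le _ _).trans ?_)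
  refine (sum_le_sum fun k _ => cyl hq Φ g hΦ (n + 1) k).trans ?_
  rw [sum_const, nsmul_eq_mul, Nat.card_Icc]
  have c1 : ((K q (Φ w) (n + 1) + m + 1 - (K q (Φ w) (n + 1) - m) : ℕ) : ℝ) ≤
      5 * (pr q (n + 1) * δ) := by
    have c2 : K q (Φ w) (n + 1) + m + 1 - (K q (Φ w) (n + 1) - m) ≤ 2 * m + 1 := by omega
    have c3 : (m : ℝ) ≤ pr q (n + 1) * δ + 1 := by
      rw [hm]; push_cast; linarith [Nat.floor_le (zero_le_one.trans h1)]
    have c4 : ((K q (Φ w) (n + 1) + m + 1 - (K q (Φ w) (n + 1) - m) : ℕ) : ℝ) ≤ 2 * m + 1 := by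
      exact_mod_cast c2
    linarith
  have c5 := pr_pos hq (n + 1)
  refine (mul_le_mul_of_nonneg_right c1 (by positivity)).trans ?_
  have c6 : 5 * (pr q (n + 1) * δ) * (2 ^ (n + 1) / pr q (n + 1)) = 10 * 2 ^ n * δ := by
    field_simp; ring
  have c7 : (pr q n : ℝ) ^ (1 - s) ≤ δ⁻¹ ^ (1 - s) :=
    Real.rpow_le_rpow (pr_pos hq n).le (by rw [← one_div, le_div_iff₀ h0]; exact h3.le)
      (by linarith)
  have c8 : δ⁻¹ ^ (1 - s) * δ = δ ^ s := by
    rw [Real.inv_rpow h0.le, ← Real.rpow_neg h0.le, ← Real.rpow_add_one h0.ne']; congr 1; ring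
  rw [c6, ← c8]
  exact mul_le_mul_of_nonneg_right ((hn0 n (by omega)).trans c7) h0.le

theorem dim_eq (hq : ∀ n, 2 ≤ q n) (ht : Tendsto q atTop atTop) (Φ : (ℕ → ℕ) → ℕ → ℕ)
    (g : ℕ → ℕ → ℕ) (hΦ : ∀ ω n, ω n = Φ ω n ∨ ω n = g n (Φ ω n)) (A : Set ℝ)
    (hA : ∀ᵐ ω ∂(P q), (∀ n, Φ ω n < q n) ∧ val q (Φ ω) ∈ A) : dimH A = 1 := by
  refine le_antisymm ((dimH_mono (Set.subset_univ A)).trans Real.dimH_univ.le) ?_
  refine le_of_forall_lt fun c hc => ?_
  obtain ⟨s, hs1, hs2⟩ := ENNReal.lt_iff_exists_nnreal_btwn.1 hc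
  refine hs1.trans_le (le_dimH_of_hausdorffMeasure_ne_zero ?_)
  have hs0 : (0 : ℝ) < s := by exact_mod_cast (show (0 : ENNReal) < s from pos_of_gt hs1)
  obtain ⟨d, hd, hf⟩ := frost hq ht Φ g hΦ (s := s) (by exact_mod_cast hs2)
  set ν : OuterMeasure ℝ := OuterMeasure.map (fun ω => val q (Φ ω))
    (OuterMeasure.restrict {ω | ∀ n, Φ ω n < q n} (P q).toOuterMeasure) with hν
  have hv : ∀ U, ν U = P q {ω | (∀ n, Φ ω n < q n) ∧ val q (Φ ω) ∈ U} := by
    intro U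
    rw [hν, OuterMeasure.map_apply, OuterMeasure.restrict_apply, Set.inter_comm]
    rfl
  have hle := OuterMeasure.le_mkMetric (fun r => r ^ (s : ℝ)) ν (ENNReal.ofReal (d / 2))
    (by simpa using hd) (by
      intro U hU
      have hb : Metric.ediam U ≠ ⊤ := ne_top_of_le_ne_top ENNReal.ofReal_ne_top hU
      have h1 : ∀ x ∈ U, ∀ y ∈ U, |x - y| ≤ Metric.diam U := fun x hx y hy =>
        Metric.dist_le_diam_of_mem' hb hx hy
      have h2 : Metric.diam U ≤ d / 2 := ENNReal.toReal_le_of_le_ofReal (by positivity) hU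
      have h3 : (P q).real {ω | (∀ n, Φ ω n < q n) ∧ val q (Φ ω) ∈ U} ≤ Metric.diam U ^ (s : ℝ) := by
        have h4 : Tendsto (fun δ : ℝ => δ ^ (s : ℝ)) (𝓝[>] (Metric.diam U))
            (𝓝 (Metric.diam U ^ (s : ℝ))) :=
          (Real.continuousAt_rpow_const _ _ (Or.inr hs0.le)).tendsto.mono_left nhdsWithin_le_nhds
        refine ge_of_tendsto h4 ?_
        filter_upwards [Ioo_mem_nhdsGT (show Metric.diam U < d by linarith)] with δ hδ
        exact hf δ (Metric.diam_nonneg.trans_lt hδ.1) hδ.2 U fun x hx y hy =>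
          (h1 x hx y hy).trans hδ.1.le
      rw [hv, ← ofReal_measureReal (measure_ne_top _ _), ← ENNReal.ofReal_toReal hb,
        ENNReal.ofReal_rpow_of_nonneg ENNReal.toReal_nonneg hs0.le]
      exact ENNReal.ofReal_le_ofReal h3)
  intro h0
  have h1 := hle A
  rw [OuterMeasure.coe_mkMetric, hv] at h1
  have h2 : P q {ω | (∀ n, Φ ω n < q n) ∧ val q (Φ ω) ∈ A} = 0 :=
    le_antisymm (h1.trans (le_of_eq h0)) zero_le
  have h3 := measure_univ_le_add_compl (μ := P q) {ω | (∀ n, Φ ω n < q n) ∧ val q (Φ ω) ∈ A}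
  rw [h2, mem_ae_iff.1 hA] at h3
  simp at h3

end Pool.Agent.H.MP_ba8092_nt
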