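import Pool.Agent.H.MP_ba8092_nt.B

set_option autoImplicit false

namespace Pool.Agent.H.MP_ba8092_nt

open MeasureTheory ProbabilityTheory Filter Topology Finset

variable {q : ℕ → ℕ}

def cy (L i : ℕ) (t : ℕ → Finset ℕ) : Set (ℕ → ℕ) := {ω | ∀ r < L, ω (i + r) ∈ t r}

theorem cy_eq (L i : ℕ) (t : ℕ → Finset ℕ) :
    cy L i t = Set.pi (Ico i (i + L) : Finset ℕ) fun n => (t (n - i) : Set ℕ) := by
  ext ω
  simp only [cy, Set.mem_ofPred_eq, Set.mem_pi, mem_coe, mem_Ico]
  constructor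
  · intro h n hn
    have := h (n - i) (by omega)
    rwa [show i + (n - i) = n by omega] at this
  · intro h r hr
    simpa using h (i + r) ⟨by omega, by omega⟩

theorem P_cy (L i : ℕ) (t : ℕ → Finset ℕ) :
    (P q).real (cy L i t) = ∏ r ∈ range L, (un q (i + r)).real (t r) := by
  rw [cy_eq, P_pi, prod_Ico_eq_prod_range]
  simp

theorem slln_cy (L : ℕ) (t : ℕ → ℕ → Finset ℕ)
    (hd : Tendsto (fun N => ∑ i ∈ range N, (P q).real (cy L i (t i))) atTop atTop) :
    ∀ᵐ ω ∂(P q), Tendsto (fun N => (∑ i ∈ range N, 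
      (cy L i (t i)).indicator (1 : (ℕ → ℕ) → ℝ) ω) /
      ∑ i ∈ range N, (P q).real (cy L i (t i))) atTop (𝓝 1) := by
  refine slln (P q) _ (fun i => ?_) L (fun i j hij => ?_) hd
  · rw [cy_eq]
    exact MeasurableSet.pi (countable_toSet _) fun _ _ => MeasurableSet.of_discrete
  · have hdj : Disjoint (Ico i (i + L)) (Ico j (j + L)) := by
      rw [disjoint_left]; intro n h1 h2; rw [mem_Ico] at h1 h2; omega
    have : cy L i (t i) ∩ cy L j (t j) = Set.pi ((Ico i (i + L) ∪ Ico j (j + L) : Finset ℕ))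
        fun n => ((if n < j then t i (n - i) else t j (n - j) : Finset ℕ) : Set ℕ) := by
      rw [cy_eq, cy_eq, coe_union, Set.union_pi]
      congr 1
      · exact Set.pi_congr rfl fun n hn => by
          rw [if_pos (by have := (mem_Ico.1 (mem_coe.1 hn)).2; omega)]
      · exact Set.pi_congr rfl fun n hn => by
          rw [if_neg (by have := (mem_Ico.1 (mem_coe.1 hn)).1; omega)]
    rw [this, P_pi, prod_union hdj, cy_eq, cy_eq, P_pi, P_pi]
    congr 1
    · exact prod_congr rfl fun n hn => by rw [if_pos (by have := (mem_Ico.1 hn).2; omega)]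
    · exact prod_congr rfl fun n hn => by rw [if_neg (by have := (mem_Ico.1 hn).1; omega)]

noncomputable def ind (E : ℕ → ℕ) {k : ℕ} (B : Fin k → ℕ) (i : ℕ) : ℝ :=
  if ∀ r : Fin k, E (i + r) = B r then 1 else 0

def NS (q : ℕ → ℕ) (k : ℕ) (E : ℕ → ℕ) : Prop :=
  ∀ B : Fin k → ℕ, Tendsto (fun n => (∑ i ∈ range n, ind E B i) / Qk q k n) atTop (𝓝 1)

theorem normal_iff (k : ℕ) (x : ℝ) : NormalOrd q k x ↔ NS q k (digit q x) := by
  simp only [NormalOrd, NS, cnt, ind, sum_boole]

theorem ev_big (ht : Tendsto q atTop atTop) (M : ℕ) : ∀ᶠ i in atTop, ∀ n, i ≤ n → M ≤ q n :=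
  eventually_forall_ge_atTop.2 (ht.eventually_ge_atTop M)

theorem ae_NS (hq : ∀ n, 2 ≤ q n) (ht : Tendsto q atTop atTop) {k : ℕ}
    (hd : Tendsto (Qk q k) atTop atTop) : ∀ᵐ ω ∂(P q), NS q k ω := by
  refine ae_all_iff.2 fun B => ?_
  set t : ℕ → Finset ℕ := fun r => {if h : r < k then B ⟨r, h⟩ else 0} with htd
  have he : ∀ᶠ i in atTop, (P q).real (cy k i t) = 1 / ∏ r ∈ range k, (q (i + r) : ℝ) := by
    filter_upwards [ev_big ht (univ.sup B + 1)] with i hi
    rw [P_cy, one_div, ← prod_inv_distrib]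
    refine prod_congr rfl fun r hr => ?_
    have h1 := mem_range.1 hr
    have h2 : B ⟨r, h1⟩ ≤ univ.sup B := le_sup (mem_univ _)
    have h3 := hi (i + r) (by omega)
    rw [un_real hq, htd]
    simp only [dif_pos h1]
    rw [inter_singleton_of_mem (mem_range.2 (by omega))]
    simp
  filter_upwards [slln_cy (q := q) k (fun _ => t) (div_ev (he.mono fun i h => h.ge) hd)] with ω hω
  refine ratio_ev (Eventually.of_forall fun i => ?_) he hd hω
  have : ω ∈ cy k i t ↔ ∀ r : Fin k, ω (i + r) = B r := by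
    constructor
    · intro h r
      simpa [htd] using h r r.2
    · intro h r hr
      simpa [htd, hr] using h ⟨r, hr⟩
  classical
  rw [ind, Set.indicator_apply]
  simp only [this, Pi.one_apply]

theorem NS.congr {k : ℕ} (hd : Tendsto (Qk q k) atTop atTop) {ω E : ℕ → ℕ}
    (h : ∀ B : Fin k → ℕ, ∀ᶠ i in atTop,
      (∀ r : Fin k, ω (i + r) = B r) ↔ ∀ r : Fin k, E (i + r) = B r) (hω : NS q k ω) :
    NS q k E := fun B =>
  ratio_ev ((h B).mono fun i hi => by simp only [ind, hi]) (Eventually.of_forall fun _ => rfl) hd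
    (hω B)

theorem NS.freq (hd : Tendsto (Qk q 1) atTop atTop) {ω : ℕ → ℕ} (hω : NS q 1 ω) :
    ∃ᶠ m in atTop, ω m = 0 := by
  intro h
  have := ratio_ev (u' := fun _ => 0) (h.mono fun i hi => by simp [ind, hi])
    (Eventually.of_forall fun _ => rfl) hd (hω fun _ => 0)
  simp at this

def f1 (q ω : ℕ → ℕ) (n : ℕ) : ℕ :=
  if 4 * ω n < q n ∨ q n ≤ 2 * ω n then ω n else q n - 1 - ω n

theorem q1 (hq : ∀ n, 2 ≤ q n) (ht : Tendsto q atTop atTop)
    (hd : ∀ k, 1 ≤ k → Tendsto (Qk q k) atTop atTop) :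
    dimH ({x | ∀ k, 1 ≤ k → NormalOrd q k x} \ {x | DistNormal q x}) = 1 := by
  classical
  refine dim_eq hq ht (f1 q) (fun n e => q n - 1 - e) (fun ω n => ?_) _ ?_
  · unfold f1; split_ifs <;> omega
  have ha : ∀ᵐ ω ∂(P q), ∀ k, 1 ≤ k → NS q k ω :=
    ae_all_iff.2 fun k => ae_all_iff.2 fun hk => ae_NS hq ht (hd k hk)
  filter_upwards [ae_lt hq, ha] with ω h1 h2
  have h3 : ∀ n, f1 q ω n < q n := fun n => by
    have := h1 n; unfold f1; split_ifs <;> omega
  have h4 : digit q (val q (f1 q ω)) = f1 q ω := funext (digit_val hq h3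
    (((h2 1 le_rfl).freq (hd 1 le_rfl)).mono fun n hn => by
      have := hq n; unfold f1; split_ifs <;> omega))
  refine ⟨h3, fun k hk => ?_, fun h => ?_⟩
  · rw [normal_iff, h4]
    refine (h2 k hk).congr (hd k hk) fun B => ?_
    filter_upwards [ev_big ht (4 * univ.sup B + 4)] with i hi
    refine forall_congr' fun r => ?_
    have h5 : B r ≤ univ.sup B := le_sup (mem_univ _)
    have h6 := hi (i + r) (by omega)
    unfold f1; split_ifs <;> omega
  · have h5 := h (1 / 3) (5 / 12) (by norm_num) (by norm_num) (by norm_num)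
    have h6 : ∀ᶠ n in atTop, (if T q n (val q (f1 q ω)) ∈ Set.Ico (1 / 3 : ℝ) (5 / 12) then (1 : ℝ)
        else 0) = 0 := by
      filter_upwards [ht.eventually_ge_atTop 9] with n hn
      rw [if_neg]
      rintro ⟨a, b⟩
      have h7 := congrFun h4 n
      have h8 : (9 : ℝ) ≤ q n := by exact_mod_cast hn
      rw [digit, Nat.floor_eq_iff (by positivity)] at h7
      have h9 : 4 * f1 q ω n + 1 ≤ q n ∨ q n ≤ 2 * f1 q ω n + 1 := by
        unfold f1; split_ifs <;> omega
      rcases h9 with h9 | h9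
      · have : 4 * (f1 q ω n : ℝ) + 1 ≤ q n := by exact_mod_cast h9
        nlinarith [h7.2]
      · have : (q n : ℝ) ≤ 2 * f1 q ω n + 1 := by exact_mod_cast h9
        nlinarith [h7.1]
    have := ratio_ev (v := fun _ => 1) h6 (Eventually.of_forall fun _ => rfl)
      (by simpa using tendsto_natCast_atTop_atTop) (l := 5 / 12 - 1 / 3)
      (by simpa only [sum_boole, sum_const, card_range, nsmul_eq_mul, mul_one] using h5)
    norm_num at this

theorem no_gap {c p d w : ℕ → ℝ} (hw : Tendsto (fun n => ∑ i ∈ range n, w i) atTop atTop)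
    (hp : ∀ᶠ i in atTop, w (i + 1) ≤ 16 * p i) (h0 : 0 ≤ d 0) (hc : ∀ i, c i ≤ d (i + 1))
    (h1 : Tendsto (fun n => (∑ i ∈ range n, c i) / ∑ i ∈ range n, p i) atTop (𝓝 1))
    (h2 : Tendsto (fun n => (∑ i ∈ range n, d i) / ∑ i ∈ range n, w i) atTop (𝓝 0)) : False := by
  obtain ⟨C, hC⟩ := sum_ev (u := fun i => min (w (i + 1)) (16 * p i)) (v := fun i => w (i + 1))
    (hp.mono fun i h => min_eq_left h)
  have hw' := hw.comp (tendsto_add_atTop_nat 1)
  have h2' := h2.comp (tendsto_add_atTop_nat 1)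
  obtain ⟨n, a1, a2, a3, a4, a5⟩ := (hC.and ((hw'.eventually_gt_atTop (2 * (w 0 - C))).and
    ((hw'.eventually_gt_atTop 0).and ((h1.eventually (lt_mem_nhds (show 1 / 2 < 1 by norm_num))).and
    (h2'.eventually (gt_mem_nhds (show 0 < 1 / 64 by norm_num))))))).exists
  simp only [Function.comp] at a2 a3 a5
  rw [div_lt_iff₀ a3] at a5
  have b1 : ∑ i ∈ range n, min (w (i + 1)) (16 * p i) ≤ 16 * ∑ i ∈ range n, p i := by
    rw [mul_sum]; exact sum_le_sum fun i _ => min_le_right _ _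
  have b2 : ∑ i ∈ range n, c i ≤ ∑ i ∈ range n, d (i + 1) := sum_le_sum fun i _ => hc i
  rw [sum_range_succ'] at a2 a3
  rw [sum_range_succ', sum_range_succ'] at a5
  rw [lt_div_iff₀ (by linarith)] at a4
  linarith

def rep (q : ℕ → ℕ) (l : ℕ) (ω : ℕ → ℕ) (n : ℕ) : Prop :=
  ∃ a j, j < l ∧ a < n ∧ n ≤ a + j ∧ ω a ∈ Ico (q a / 2) (q a - 1) ∧
    ω (a + j + 1) ∈ Ico (q (a + j + 1) / 2) (q (a + j + 1) - 1) ∧
    ∀ r, a < r → r ≤ a + j → ω r = q r - 1

open Classical in
noncomputable def f2 (q : ℕ → ℕ) (l : ℕ) (ω : ℕ → ℕ) (n : ℕ) : ℕ := if rep q l ω n then 0 else ω n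

theorem rep.top {l : ℕ} {ω : ℕ → ℕ} {n : ℕ} (h : rep q l ω n) : ω n = q n - 1 := by
  obtain ⟨a, j, -, h1, h2, -, -, h3⟩ := h
  exact h3 n h1 h2

theorem f2_of {l : ℕ} {ω : ℕ → ℕ} {n : ℕ} (h : ω n ≠ q n - 1) : f2 q l ω n = ω n :=
  if_neg fun h' => h h'.top

theorem f2_zero {l : ℕ} {ω : ℕ → ℕ} {n : ℕ} (h : ω n = 0) : f2 q l ω n = 0 := by
  unfold f2; split_ifs; exacts [rfl, h]

theorem ae_not (hq : ∀ n, 2 ≤ q n) (ht : Tendsto q atTop atTop) {l j : ℕ} (h1 : 1 ≤ j) (h2 : j < l)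
    (hd : Tendsto (Qk q j) atTop atTop) : ∀ᵐ ω ∂(P q), ¬ NS q j (f2 q l ω) := by
  set t : ℕ → ℕ → Finset ℕ := fun i r => if r = 0 ∨ r = j + 1 then
    Ico (q (i + r) / 2) (q (i + r) - 1) else {q (i + r) - 1} with htd
  have hp : ∀ᶠ i in atTop, 1 / ∏ r ∈ range j, (q (i + 1 + r) : ℝ) ≤
      16 * (P q).real (cy (j + 2) i (t i)) := by
    filter_upwards [ev_big ht 4] with i hi
    have hl : ∀ n, i ≤ n → (1 : ℝ) / 4 ≤ (un q n).real (Ico (q n / 2) (q n - 1) : Finset ℕ) := by
      intro n hn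
      have h4 := hi n hn
      rw [un_real hq, inter_eq_right.2 (fun x hx => by
        rw [mem_Ico] at hx; rw [mem_range]; omega), Nat.card_Ico,
        div_le_div_iff₀ (by norm_num) (q_pos hq n)]
      have : 1 * q n ≤ (q n - 1 - q n / 2) * 4 := by omega
      exact_mod_cast this
    have hm : ∏ r ∈ range j, (un q (i + (r + 1))).real (t i (r + 1)) =
        1 / ∏ r ∈ range j, (q (i + 1 + r) : ℝ) := by
      rw [one_div, ← prod_inv_distrib]
      refine prod_congr rfl fun r hr => ?_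
      have h3 := mem_range.1 hr
      have h4 := hq (i + (r + 1))
      rw [un_real hq, htd]
      simp only
      rw [if_neg (by omega), inter_singleton_of_mem (mem_range.2 (by omega)),
        show i + 1 + r = i + (r + 1) by ring]
      simp
    rw [P_cy, prod_range_succ, prod_range_succ', hm]
    have a1 : (1 : ℝ) / 4 ≤ (un q (i + 0)).real (t i 0) := by
      simpa only [htd, true_or, if_true] using hl (i + 0) (by omega)
    have a2 : (1 : ℝ) / 4 ≤ (un q (i + (j + 1))).real (t i (j + 1)) := by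
      simpa only [htd, or_true, if_true] using hl (i + (j + 1)) (by omega)
    have a3 : (0 : ℝ) ≤ 1 / ∏ r ∈ range j, (q (i + 1 + r) : ℝ) := by positivity
    have a4 := mul_le_mul a1 a2 (by norm_num) measureReal_nonneg
    nlinarith [mul_le_mul_of_nonneg_left a4 a3]
  have hdv : Tendsto (fun N => ∑ i ∈ range N, (P q).real (cy (j + 2) i (t i))) atTop atTop := by
    refine div_ev (v' := fun i => 1 / 16 * (1 / ∏ r ∈ range j, (q (i + 1 + r) : ℝ)))
      (hp.mono fun i h => by linarith) ?_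
    simp only [← mul_sum]
    refine Tendsto.const_mul_atTop (by norm_num) ?_
    have := tendsto_atTop_add_const_right _ (-(1 / ∏ r ∈ range j, (q (0 + r) : ℝ)))
      (hd.comp (tendsto_add_atTop_nat 1))
    refine this.congr fun n => ?_
    simp only [Function.comp, Qk]
    rw [sum_range_succ']
    ring
  filter_upwards [slln_cy (j + 2) t hdv, ae_NS hq ht hd] with ω a1 a2 a3
  have b1 : ∀ i, ind ω (fun _ : Fin j => 0) i ≤ ind (f2 q l ω) (fun _ : Fin j => 0) i := by
    intro i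
    unfold ind
    split_ifs with c1 c2
    · exact le_rfl
    · exact absurd (fun r => f2_zero (c1 r)) c2
    · exact zero_le_one
    · exact le_rfl
  refine no_gap (w := fun i => 1 / ∏ r ∈ range j, (q (i + r) : ℝ))
    (d := fun i => ind (f2 q l ω) (fun _ : Fin j => 0) i - ind ω (fun _ : Fin j => 0) i) hd hp
    (sub_nonneg.2 (b1 0)) (fun i => ?_) a1 ?_
  · by_cases h : ω ∈ cy (j + 2) i (t i)
    · have c0 : ∀ r, i < r → r ≤ i + j → ω r = q r - 1 := by
        intro r r1 r2
        have := h (r - i) (by omega)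
        simp only [htd] at this
        rw [if_neg (by omega), show i + (r - i) = r by omega] at this
        exact mem_singleton.1 this
      have c1 : ∀ r : Fin j, f2 q l ω (i + 1 + r) = 0 := fun r =>
        if_pos ⟨i, j, h2, by omega, by have := r.2; omega, by simpa [htd] using h 0 (by omega),
          by simpa [htd, add_assoc] using h (j + 1) (by omega), c0⟩
      have c2 : ¬ ∀ r : Fin j, ω (i + 1 + r) = 0 := fun c => by
        have e1 := c ⟨0, h1⟩
        have e2 := c0 (i + 1) (by omega) (by omega)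
        have e3 := hq (i + 1)
        simp only [add_zero] at e1
        omega
      simp only [Set.indicator_of_mem h, ind, if_pos c1, if_neg c2, Pi.one_apply, sub_zero, le_refl]
    · rw [Set.indicator_of_notMem h]
      exact sub_nonneg.2 (b1 _)
  · have := (a3 fun _ => 0).sub (a2 fun _ => 0)
    rw [sub_self] at this
    refine this.congr fun n => ?_
    rw [sum_sub_distrib, sub_div]
    rfl

theorem q2 (hq : ∀ n, 2 ≤ q n) (ht : Tendsto q atTop atTop)
    (hd : ∀ k, 1 ≤ k → Tendsto (Qk q k) atTop atTop) {l : ℕ} (hl : 1 ≤ l) :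
    dimH ({x | ∀ j, l ≤ j → NormalOrd q j x} \ {x | ∃ j, 1 ≤ j ∧ j < l ∧ NormalOrd q j x}) = 1 := by
  refine dim_eq hq ht (f2 q l) (fun n _ => q n - 1) (fun ω n => ?_) _ ?_
  · by_cases h : ω n = q n - 1
    · exact Or.inr h
    · exact Or.inl (f2_of h).symm
  have ha : ∀ᵐ ω ∂(P q), ∀ k, 1 ≤ k → NS q k ω :=
    ae_all_iff.2 fun k => ae_all_iff.2 fun hk => ae_NS hq ht (hd k hk)
  have hb : ∀ᵐ ω ∂(P q), ∀ j, 1 ≤ j → j < l → ¬ NS q j (f2 q l ω) :=
    ae_all_iff.2 fun j => ae_all_iff.2 fun h1 => ae_all_iff.2 fun h2 => ae_not hq ht h1 h2 (hd j h1)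
  filter_upwards [ae_lt hq, ha, hb] with ω h1 h2 h5
  have h3 : ∀ n, f2 q l ω n < q n := fun n => by
    have := h1 n; unfold f2; split_ifs <;> omega
  have h4 : digit q (val q (f2 q l ω)) = f2 q l ω := funext (digit_val hq h3
    (((h2 1 le_rfl).freq (hd 1 le_rfl)).mono fun n hn => f2_zero hn))
  refine ⟨h3, fun k hk => ?_, fun ⟨j, j1, j2, h⟩ => h5 j j1 j2 (by rwa [normal_iff, h4] at h)⟩
  rw [normal_iff, h4]
  refine (h2 k (hl.trans hk)).congr (hd k (hl.trans hk)) fun B => ?_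
  filter_upwards [ev_big ht (2 * univ.sup B + 2)] with i hi
  have h6 : ∀ r, B r ≤ univ.sup B := fun r => le_sup (mem_univ _)
  constructor
  · intro h r
    have := hi (i + r) (by omega)
    rw [f2_of (by have := h r; have := h6 r; omega), h r]
  · intro h r
    rw [← h r]
    refine (if_neg ?_).symm
    rintro ⟨a, j, b1, b2, b3, b4, b5, -⟩
    have key : ∀ p, i ≤ p → p < i + k → ω p ∈ Ico (q p / 2) (q p - 1) → False := by
      intro p p1 p2 p3
      rw [mem_Ico] at p3
      have e1 := h ⟨p - i, by omega⟩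
      have e2 := h6 ⟨p - i, by omega⟩
      have e3 := hi p p1
      simp only [show i + (p - i) = p by omega] at e1
      rw [f2_of (by omega)] at e1
      omega
    have := r.2
    by_cases c : i ≤ a
    · exact key a c (by omega) b4
    · exact key (a + j + 1) (by omega) (by omega) b5

end Pool.Agent.H.MP_ba8092_nt
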